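import Mathlib

set_option autoImplicit false
set_option linter.unusedSectionVars false

open Finset Polynomial

namespace Pool.Agent.Results.MP_94a3a7_co.UniqueMinimizer

/-- A finite simplicial complex whose vertex set is `U`. -/
structure SCx (U : Type) where
  faces : Finset (Finset U)
  empty_mem : ∅ ∈ faces
  down : ∀ F ∈ faces, ∀ G, G ⊆ F → G ∈ faces
  vertex_mem : ∀ u : U, {u} ∈ faces

section defs

variable {U : Type} [Fintype U] [DecidableEq U]

/-- A missing face: not a face, but every proper subset is a face. -/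
def IsMissingFace (Δ : SCx U) (τ : Finset U) : Prop :=
  τ ∉ Δ.faces ∧ ∀ G, G ⊂ τ → G ∈ Δ.faces

/-- The link of `σ`. -/
def link (Δ : SCx U) (σ : Finset U) : Finset (Finset U) :=
  Δ.faces.filter fun G => Disjoint G σ ∧ G ∪ σ ∈ Δ.faces

/-- Chains of a complex (given by its set `L` of faces) with coefficients in the field with two
elements, on the faces with `j` elements, that is, in dimension `j - 1`. -/
abbrev Chain (L : Finset (Finset U)) (j : ℕ) : Type :=
  {G : Finset U // G ∈ L ∧ G.card = j} → ZMod 2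

/-- The boundary map from dimension `j` to dimension `j - 1`; the coefficient of `G` in the
boundary of `c` is the sum of the coefficients of the faces with `j + 1` elements containing
`G`. -/
def bdry (L : Finset (Finset U)) (j : ℕ) : Chain L (j + 1) →ₗ[ZMod 2] Chain L j where
  toFun c G := ∑ F : {F : Finset U // F ∈ L ∧ F.card = j + 1},
    if (G : Finset U) ⊆ (F : Finset U) then c F else 0
  map_add' c c' := by
    funext G
    simp only [Pi.add_apply]
    rw [← Finset.sum_add_distrib]
    refine Finset.sum_congr rfl fun F _ => ?_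
    split_ifs <;> simp
  map_smul' a c := by
    funext G
    simp only [Pi.smul_apply, smul_eq_mul, RingHom.id_apply]
    rw [Finset.mul_sum]
    refine Finset.sum_congr rfl fun F _ => ?_
    split_ifs <;> simp

/-- The cycles on the faces with `j` elements (reduced homology: everything for `j = 0`). -/
def cycles (L : Finset (Finset U)) : (j : ℕ) → Submodule (ZMod 2) (Chain L j)
  | 0 => ⊤
  | j + 1 => LinearMap.ker (bdry L j)

/-- The boundaries on the faces with `j` elements. -/
def boundaries (L : Finset (Finset U)) (j : ℕ) : Submodule (ZMod 2) (Chain L j) :=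
  LinearMap.range (bdry L j)

/-- The reduced homology of `L` in dimension `j - 1` with coefficients in the field with two
elements, cycles modulo boundaries, has dimension `β`. -/
def HomologyDim (L : Finset (Finset U)) (j β : ℕ) : Prop :=
  Module.finrank (ZMod 2) (cycles L j) = Module.finrank (ZMod 2) (boundaries L j) + β

/-- `Δ` is a `ℤ/2ℤ`-homology `(d-1)`-sphere: it is pure of dimension `d - 1` and the link of each
face `σ` has the reduced homology of a sphere of dimension `d - 1 - |σ|`, that is, dimension one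
in dimension `d - 1 - |σ|` and zero otherwise. -/
structure IsSphere (Δ : SCx U) (d : ℕ) : Prop where
  pure : ∀ F ∈ Δ.faces, ∃ G ∈ Δ.faces, F ⊆ G ∧ G.card = d
  homology : ∀ σ ∈ Δ.faces, ∀ j, HomologyDim (link Δ σ) j (if j + σ.card = d then 1 else 0)

/-- The number `f_{j-1}` of faces with `j` elements. -/
def fNum (Δ : SCx U) (j : ℕ) : ℕ := (Δ.faces.filter fun G => G.card = j).card

/-- The h-numbers of a complex of dimension `d - 1`. -/
def hNum (Δ : SCx U) (d j : ℕ) : ℤ :=
  ∑ k ∈ range (j + 1), (-1) ^ (j - k) * ((d - k).choose (d - j) : ℤ) * (fNum Δ k : ℤ)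

/-- The g-numbers of a complex of dimension `d - 1`. -/
def gNum (Δ : SCx U) (d : ℕ) : ℕ → ℤ
  | 0 => 1
  | j + 1 => hNum Δ d (j + 1) - hNum Δ d j

end defs

/-- The join of the boundaries of simplices of dimensions `a 0, …, a (m-1)`, all positive: the
vertices are the pairs `(t, x)` with `x ≤ a t`, and a set is a face if it contains no full
block. -/
def joinOfBoundaries (m : ℕ) (a : Fin m → ℕ) (ha : ∀ t, 1 ≤ a t) :
    SCx (Σ t : Fin m, Fin (a t + 1)) where
  faces := univ.filter fun G => ∀ t, ∃ x : Fin (a t + 1), (⟨t, x⟩ : Σ t : Fin m, Fin (a t + 1)) ∉ G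
  empty_mem := by
    rw [mem_filter]
    exact ⟨mem_univ _, fun t => ⟨0, notMem_empty _⟩⟩
  down := by
    intro F hF G hG
    rw [mem_filter] at hF ⊢
    refine ⟨mem_univ _, fun t => ?_⟩
    obtain ⟨x, hx⟩ := hF.2 t
    exact ⟨x, fun h => hx (hG h)⟩
  vertex_mem := by
    rintro ⟨s, y⟩
    rw [mem_filter]
    refine ⟨mem_univ _, fun t => ?_⟩
    by_cases h : t = s
    · subst h
      have : Nontrivial (Fin (a t + 1)) := by
        have := ha t
        exact Fin.nontrivial_iff_two_le.2 (by omega)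
      obtain ⟨x, hx⟩ := exists_ne y
      refine ⟨x, fun h2 => hx ?_⟩
      rw [mem_singleton] at h2
      simpa using h2
    · refine ⟨0, fun h2 => h ?_⟩
      rw [mem_singleton] at h2
      exact congrArg Sigma.fst h2

/-- The dimensions of the simplices in `K(i, d-1)`: `i` repeated `q` times, and `r`. -/
def dims (i q r : ℕ) : Fin (q + 1) → ℕ := fun t => if (t : ℕ) < q then i else r

lemma dims_pos {i q r : ℕ} (hi : 1 ≤ i) (hr : 1 ≤ r) (t : Fin (q + 1)) : 1 ≤ dims i q r t := by
  unfold dims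
  split_ifs <;> assumption

/-- The complex `K(i, d-1)` for `d = q i + r`, the join of `q` copies of the boundary of the
`i`-simplex with the boundary of the `r`-simplex. -/
def K (i q r : ℕ) (hi : 1 ≤ i) (hr : 1 ≤ r) : SCx (Σ t : Fin (q + 1), Fin (dims i q r t + 1)) :=
  joinOfBoundaries (q + 1) (dims i q r) (dims_pos hi hr)

/-- Isomorphism of simplicial complexes. -/
def Isomorphic {U W : Type} (Δ : SCx U) (Γ : SCx W) : Prop :=
  ∃ e : U ≃ W, ∀ G : Finset U, G ∈ Δ.faces ↔ G.map e.toEmbedding ∈ Γ.faces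

/-! ### Euler characteristic of links -/

section proof

variable {U : Type} [Fintype U] [DecidableEq U]

lemma finrank_chain (L : Finset (Finset U)) (j : ℕ) :
    Module.finrank (ZMod 2) (Chain L j) = (L.filter fun G => G.card = j).card := by
  rw [Module.finrank_fintype_fun_eq_card, Fintype.card_subtype]
  congr 1
  ext G
  simp

lemma rank_nullity (L : Finset (Finset U)) (j : ℕ) :
    (L.filter fun G => G.card = j + 1).card =
      Module.finrank (ZMod 2) (cycles L (j + 1)) + Module.finrank (ZMod 2) (boundaries L j) := by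
  rw [← finrank_chain]
  have := LinearMap.finrank_range_add_finrank_ker (bdry L j)
  have h : cycles L (j + 1) = LinearMap.ker (bdry L j) := rfl
  rw [h]
  unfold boundaries
  omega

lemma euler_partial (L : Finset (Finset U)) (β : ℕ → ℕ) (hβ : ∀ j, HomologyDim L j (β j))
    (N : ℕ) :
    ∑ j ∈ range (N + 1), (-1 : ℤ) ^ j * ((L.filter fun G => G.card = j).card : ℤ) =
      ∑ j ∈ range (N + 1), (-1 : ℤ) ^ j * (β j : ℤ) +
        (-1) ^ N * (Module.finrank (ZMod 2) (boundaries L N) : ℤ) := by
  induction N with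
  | zero =>
    have h1 := hβ 0
    unfold HomologyDim at h1
    have h2 : Module.finrank (ZMod 2) (cycles L 0) = (L.filter fun G => G.card = 0).card := by
      rw [← finrank_chain]
      unfold cycles
      exact finrank_top _ _
    rw [h2] at h1
    simp only [zero_add, Finset.sum_range_one, pow_zero, one_mul]
    rw [h1]
    push_cast
    ring
  | succ N ih =>
    rw [Finset.sum_range_succ, ih, Finset.sum_range_succ _ (N + 1), rank_nullity]
    have h1 := hβ (N + 1)
    unfold HomologyDim at h1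
    rw [h1]
    push_cast
    ring

lemma euler (L : Finset (Finset U)) (β : ℕ → ℕ) (hβ : ∀ j, HomologyDim L j (β j))
    (N : ℕ) (hN : ∀ G ∈ L, G.card ≤ N) :
    ∑ G ∈ L, (-1 : ℤ) ^ G.card = ∑ j ∈ range (N + 1), (-1 : ℤ) ^ j * (β j : ℤ) := by
  have h1 := euler_partial L β hβ N
  have h2 : Module.finrank (ZMod 2) (boundaries L N) = 0 := by
    have h3 := rank_nullity L N
    have h4 : (L.filter fun G => G.card = N + 1).card = 0 := by
      rw [card_eq_zero, filter_eq_empty_iff]
      intro G hG h5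
      have := hN G hG
      omega
    omega
  rw [h2] at h1
  simp only [Nat.cast_zero, mul_zero, add_zero] at h1
  rw [← h1, ← Finset.sum_fiberwise_of_maps_to (s := L) (t := range (N + 1)) (g := Finset.card)
    (fun G hG => mem_range.2 (Nat.lt_succ_of_le (hN G hG)))]
  refine Finset.sum_congr rfl fun j _ => ?_
  rw [Finset.sum_congr rfl (g := fun _ => (-1 : ℤ) ^ j)
    (fun G hG => by rw [(mem_filter.1 hG).2])]
  rw [Finset.sum_const, nsmul_eq_mul]
  ring

lemma card_le {Δ : SCx U} {d : ℕ} (hΔ : IsSphere Δ d) {F : Finset U} (hF : F ∈ Δ.faces) :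
    F.card ≤ d := by
  obtain ⟨G, _, h1, h2⟩ := hΔ.pure F hF
  rw [← h2]
  exact card_le_card h1

lemma star_sum {Δ : SCx U} {d : ℕ} (hΔ : IsSphere Δ d) {σ : Finset U} (hσ : σ ∈ Δ.faces) :
    ∑ F ∈ Δ.faces.filter (fun F => σ ⊆ F), (-1 : ℤ) ^ F.card = (-1) ^ d := by
  have hσd := card_le hΔ hσ
  have h1 := euler (link Δ σ) _ (hΔ.homology σ hσ) d
    (fun G hG => card_le hΔ (mem_filter.1 hG).1)
  have h2 : ∑ j ∈ range (d + 1), (-1 : ℤ) ^ j * ((if j + σ.card = d then 1 else 0 : ℕ) : ℤ) =
      (-1) ^ (d - σ.card) := by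
    rw [Finset.sum_eq_single (d - σ.card)]
    · rw [if_pos (by omega)]
      simp
    · intro j _ hj
      rw [if_neg (by omega)]
      simp
    · intro h
      exact absurd (mem_range.2 (by omega)) h
  rw [h2] at h1
  have h3 : ∑ F ∈ Δ.faces.filter (fun F => σ ⊆ F), (-1 : ℤ) ^ F.card =
      ∑ G ∈ link Δ σ, (-1 : ℤ) ^ (G.card + σ.card) := by
    refine Finset.sum_nbij' (fun F => F \ σ) (fun G => G ∪ σ) ?_ ?_ ?_ ?_ ?_
    · intro F hF
      rw [mem_filter] at hF
      unfold link
      rw [mem_filter]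
      exact ⟨Δ.down F hF.1 _ sdiff_subset, disjoint_sdiff_self_left, by
        rw [sdiff_union_of_subset hF.2]; exact hF.1⟩
    · intro G hG
      unfold link at hG
      rw [mem_filter] at hG ⊢
      exact ⟨hG.2.2, subset_union_right⟩
    · intro F hF
      rw [mem_filter] at hF
      exact sdiff_union_of_subset hF.2
    · intro G hG
      unfold link at hG
      rw [mem_filter] at hG
      exact union_sdiff_cancel_right hG.2.1
    · intro F hF
      rw [mem_filter] at hF
      rw [card_sdiff_of_subset hF.2, Nat.sub_add_cancel (card_le_card hF.2)]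
  rw [h3]
  simp only [pow_add]
  rw [← Finset.sum_mul, h1, ← pow_add, Nat.sub_add_cancel hσd]

/-- the face polynomial -/
noncomputable def facePoly (Δ : SCx U) : ℤ[X] := ∑ F ∈ Δ.faces, X ^ F.card

lemma facePoly_coeff (Δ : SCx U) (k : ℕ) : (facePoly Δ).coeff k = fNum Δ k := by
  unfold facePoly fNum
  rw [finsetSum_coeff]
  simp only [coeff_X_pow]
  rw [Finset.card_filter]
  push_cast
  refine Finset.sum_congr rfl fun F _ => ?_
  simp only [eq_comm]

lemma pow_card_eq (s : Finset U) : ((1 : ℤ[X]) + X) ^ s.card = ∑ t ∈ s.powerset, X ^ t.card := by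
  have := Finset.sum_pow_mul_eq_add_pow (X : ℤ[X]) 1 s
  simp only [one_pow, mul_one] at this
  rw [this, add_comm]

lemma dehn_sommerville {Δ : SCx U} {d : ℕ} (hΔ : IsSphere Δ d) :
    (facePoly Δ).comp (-1 - X) = (-1) ^ d * facePoly Δ := by
  unfold facePoly
  rw [Polynomial.sum_comp]
  have h1 : ∀ F ∈ Δ.faces, ((X : ℤ[X]) ^ F.card).comp (-1 - X) =
      ∑ σ ∈ Δ.faces, if σ ⊆ F then (-1) ^ F.card * X ^ σ.card else 0 := by
    intro F hF
    rw [X_pow_comp]
    have h2 : (-1 - X : ℤ[X]) ^ F.card = (-1) ^ F.card * (1 + X) ^ F.card := by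
      rw [← mul_pow]
      congr 1
      ring
    rw [h2, pow_card_eq, Finset.mul_sum, ← Finset.sum_filter]
    refine Finset.sum_congr ?_ fun _ _ => rfl
    ext G
    rw [mem_powerset, mem_filter]
    exact ⟨fun h => ⟨Δ.down F hF G h, h⟩, fun h => h.2⟩
  rw [Finset.sum_congr rfl h1, Finset.sum_comm, Finset.mul_sum]
  refine Finset.sum_congr rfl fun σ hσ => ?_
  rw [← Finset.sum_filter, ← Finset.sum_mul]
  have h3 := star_sum hΔ hσ
  have h4 : ∑ F ∈ Δ.faces.filter (fun F => σ ⊆ F), (-1 : ℤ[X]) ^ F.card = (-1) ^ d := by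
    have := congrArg (fun z : ℤ => (C z : ℤ[X])) h3
    simpa using this
  rw [h4]

lemma poly_zero (D : ℤ[X]) (d : ℕ) (hdeg : D.natDegree ≤ d)
    (hds : D.comp (-1 - X) = (-1) ^ d * D) (h0 : ∀ k ≤ d / 2, D.coeff k = 0) : D = 0 := by
  by_contra hne
  set m := d / 2 + 1 with hm
  have h1 : X ^ m ∣ D := by
    rw [X_pow_dvd_iff]
    intro k hk
    exact h0 k (by omega)
  have h2 : (1 + X) ^ m ∣ D := by
    obtain ⟨E, hE⟩ := h1
    have h3 : D.comp (-1 - X) = (1 + X) ^ m * ((-1) ^ m * E.comp (-1 - X)) := by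
      rw [hE, mul_comp, X_pow_comp]
      have : (-1 - X : ℤ[X]) ^ m = (-1) ^ m * (1 + X) ^ m := by
        rw [← mul_pow]
        congr 1
        ring
      rw [this]
      ring
    have h4 : D = (-1) ^ d * D.comp (-1 - X) := by
      rw [hds, ← mul_assoc, ← pow_add, ← two_mul, pow_mul]
      simp
    rw [h4, h3]
    exact ⟨(-1) ^ d * ((-1) ^ m * E.comp (-1 - X)), by ring⟩
  have hcop : IsCoprime ((X : ℤ[X]) ^ m) ((1 + X) ^ m) := by
    apply IsCoprime.pow
    exact ⟨-1, 1, by ring⟩
  have h3 := hcop.mul_dvd h1 h2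
  have h4 := natDegree_le_of_dvd h3 hne
  have h5 : ((X : ℤ[X]) ^ m * (1 + X) ^ m).natDegree = m + m := by
    have hx : (1 + X : ℤ[X]) = X + C 1 := by rw [C_1, add_comm]
    rw [natDegree_mul (pow_ne_zero _ X_ne_zero) (by
      rw [hx]; exact pow_ne_zero _ (X_add_C_ne_zero 1)), natDegree_X_pow, hx, natDegree_pow,
      natDegree_X_add_C, mul_one]
  omega

/-! ### The complexes `K(i, d-1)` -/

lemma mem_join {m : ℕ} {a : Fin m → ℕ} {ha : ∀ t, 1 ≤ a t}
    {G : Finset (Σ t : Fin m, Fin (a t + 1))} :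
    G ∈ (joinOfBoundaries m a ha).faces ↔ ∀ t, ∃ x : Fin (a t + 1),
      (⟨t, x⟩ : Σ t : Fin m, Fin (a t + 1)) ∉ G := by
  simp [joinOfBoundaries]

lemma join_facePoly (m : ℕ) (a : Fin m → ℕ) (ha : ∀ t, 1 ≤ a t) :
    facePoly (joinOfBoundaries m a ha) =
      ∏ t, ((1 + X : ℤ[X]) ^ (a t + 1) - X ^ (a t + 1)) := by
  have h1 : ∀ t, (1 + X : ℤ[X]) ^ (a t + 1) - X ^ (a t + 1) =
      ∑ S ∈ (univ : Finset (Fin (a t + 1))).ssubsets, X ^ S.card := by
    intro t
    have h2 := pow_card_eq (univ : Finset (Fin (a t + 1)))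
    rw [← Finset.insert_erase (Finset.mem_powerset_self (univ : Finset (Fin (a t + 1)))),
      Finset.sum_insert (notMem_erase _ _), card_univ, Fintype.card_fin] at h2
    rw [h2]
    unfold Finset.ssubsets
    ring
  rw [Finset.prod_congr rfl fun t _ => h1 t, Finset.prod_univ_sum]
  unfold facePoly
  symm
  refine Finset.sum_nbij' (fun p => univ.sigma p)
    (fun G => fun t => univ.filter fun x => (⟨t, x⟩ : Σ t : Fin m, Fin (a t + 1)) ∈ G)
    ?_ ?_ ?_ ?_ ?_
  · intro p hp
    rw [Fintype.mem_piFinset] at hp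
    rw [mem_join]
    intro t
    have h2 := (mem_ssubsets.1 (hp t)).2
    obtain ⟨x, _, hx⟩ := Finset.not_subset.1 h2
    exact ⟨x, fun h => hx (Finset.mem_sigma.1 h).2⟩
  · intro G hG
    rw [mem_join] at hG
    rw [Fintype.mem_piFinset]
    intro t
    rw [mem_ssubsets, Finset.ssubset_univ_iff]
    obtain ⟨x, hx⟩ := hG t
    intro h
    have : x ∈ univ.filter fun x => (⟨t, x⟩ : Σ t : Fin m, Fin (a t + 1)) ∈ G := by
      rw [h]; exact mem_univ _
    exact hx (mem_filter.1 this).2
  · intro p hp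
    funext t
    ext x
    simp
  · intro G hG
    ext ⟨t, x⟩
    simp
  · intro p hp
    rw [Finset.card_sigma, Finset.prod_pow_eq_pow_sum]

lemma join_ds (m : ℕ) (a : Fin m → ℕ) (ha : ∀ t, 1 ≤ a t) :
    (facePoly (joinOfBoundaries m a ha)).comp (-1 - X) =
      (-1) ^ (∑ t, a t) * facePoly (joinOfBoundaries m a ha) := by
  rw [join_facePoly, Polynomial.prod_comp, ← Finset.prod_pow_eq_pow_sum,
    ← Finset.prod_mul_distrib]
  refine Finset.prod_congr rfl fun t _ => ?_
  rw [sub_comp, pow_comp, pow_comp, add_comp, one_comp, X_comp]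
  have e1 : (1 + (-1 - X) : ℤ[X]) = (-1) * X := by ring
  have e2 : (-1 - X : ℤ[X]) = (-1) * (1 + X) := by ring
  rw [e1, e2, mul_pow, mul_pow, pow_succ (-1 : ℤ[X])]
  ring

lemma sum_dims (i q r : ℕ) : ∑ t, dims i q r t = q * i + r := by
  rw [Fin.sum_univ_castSucc]
  unfold dims
  simp

lemma card_le_join {m : ℕ} {a : Fin m → ℕ} {ha : ∀ t, 1 ≤ a t}
    {G : Finset (Σ t : Fin m, Fin (a t + 1))} (hG : G ∈ (joinOfBoundaries m a ha).faces) :
    G.card ≤ ∑ t, a t := by
  rw [mem_join] at hG
  choose x hx using hG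
  have h1 : (univ.image fun t => (⟨t, x t⟩ : Σ t : Fin m, Fin (a t + 1))).card = m := by
    rw [Finset.card_image_of_injective _ (fun s t h => congrArg Sigma.fst h), card_univ,
      Fintype.card_fin]
  have h2 : Disjoint G (univ.image fun t => (⟨t, x t⟩ : Σ t : Fin m, Fin (a t + 1))) := by
    rw [Finset.disjoint_right]
    intro y hy
    obtain ⟨t, _, rfl⟩ := mem_image.1 hy
    exact hx t
  have h3 := Finset.card_union_of_disjoint h2
  have h4 := Finset.card_le_univ (G ∪ univ.image fun t => (⟨t, x t⟩ : Σ t : Fin m, Fin (a t + 1)))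
  rw [h3, h1, Fintype.card_sigma] at h4
  simp only [Fintype.card_fin, Finset.sum_add_distrib, Finset.sum_const, card_univ,
    smul_eq_mul, mul_one] at h4
  omega

/-! ### Equality of the face numbers -/

lemma fNum_zero (Δ : SCx U) : fNum Δ 0 = 1 := by
  unfold fNum
  rw [card_eq_one]
  refine ⟨∅, ?_⟩
  ext G
  rw [mem_filter, mem_singleton, card_eq_zero]
  exact ⟨fun h => h.2, fun h => by rw [h]; exact ⟨Δ.empty_mem, rfl⟩⟩

lemma fNum_eq_low {W : Type} [Fintype W] [DecidableEq W] (Δ : SCx U) (Γ : SCx W) (d : ℕ)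
    (hg : ∀ j ≤ d / 2, gNum Δ d j = gNum Γ d j) :
    ∀ k ≤ d / 2, fNum Δ k = fNum Γ k := by
  have hh : ∀ j ≤ d / 2, hNum Δ d j = hNum Γ d j := by
    intro j
    induction j with
    | zero =>
      intro _
      simp [hNum, fNum_zero]
    | succ j ih =>
      intro hj
      have h1 := hg (j + 1) hj
      have h2 := ih (by omega)
      unfold gNum at h1
      linarith
  intro k
  induction k using Nat.strong_induction_on with
  | _ k ih =>
    intro hk
    have h1 := hh k hk
    unfold hNum at h1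
    rw [Finset.sum_range_succ, Finset.sum_range_succ] at h1
    have h2 : ∑ x ∈ range k, (-1 : ℤ) ^ (k - x) * ((d - x).choose (d - k) : ℤ) * (fNum Δ x : ℤ) =
        ∑ x ∈ range k, (-1 : ℤ) ^ (k - x) * ((d - x).choose (d - k) : ℤ) * (fNum Γ x : ℤ) := by
      refine Finset.sum_congr rfl fun x hx => ?_
      rw [mem_range] at hx
      rw [ih x hx (by omega)]
    rw [h2, Nat.sub_self, Nat.choose_self] at h1
    simp only [pow_zero, one_mul, Nat.cast_one] at h1
    have h3 : (fNum Δ k : ℤ) = fNum Γ k := by linarith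
    exact_mod_cast h3

lemma fNum_eq {Δ : SCx U} {i q r d : ℕ} (hi : 1 ≤ i) (hr : 1 ≤ r) (hd : d = q * i + r)
    (hΔ : IsSphere Δ d) (hg : ∀ j ≤ d / 2, gNum Δ d j = gNum (K i q r hi hr) d j) (k : ℕ) :
    fNum Δ k = fNum (K i q r hi hr) k := by
  have h1 := fNum_eq_low Δ (K i q r hi hr) d hg
  have h2 : facePoly Δ - facePoly (K i q r hi hr) = 0 := by
    apply poly_zero _ d
    · apply (natDegree_sub_le _ _).trans
      apply max_le
      · unfold facePoly
        apply natDegree_sum_le_of_forall_le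
        intro F hF
        rw [natDegree_X_pow]
        exact card_le hΔ hF
      · unfold facePoly
        apply natDegree_sum_le_of_forall_le
        intro F hF
        rw [natDegree_X_pow, hd, ← sum_dims i q r]
        exact card_le_join hF
    · rw [sub_comp, dehn_sommerville hΔ]
      have h3 := join_ds (q + 1) (dims i q r) (dims_pos hi hr)
      rw [sum_dims, ← hd] at h3
      unfold K
      rw [h3]
      ring
    · intro k hk
      rw [coeff_sub, facePoly_coeff, facePoly_coeff, h1 k hk, sub_self]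
  have h3 := congrArg (fun p => coeff p k) h2
  simp only [coeff_sub, facePoly_coeff, coeff_zero] at h3
  have h4 : (fNum Δ k : ℤ) = fNum (K i q r hi hr) k := by linarith
  exact_mod_cast h4

/-! ### Nonfaces -/

/-- nonfaces of size `s` -/
def NF (Δ : SCx U) (s : ℕ) : Finset (Finset U) :=
  (univ.powersetCard s).filter fun G => G ∉ Δ.faces

lemma mem_NF {Δ : SCx U} {s : ℕ} {G : Finset U} :
    G ∈ NF Δ s ↔ G.card = s ∧ G ∉ Δ.faces := by
  simp [NF, mem_powersetCard]

lemma card_NF (Δ : SCx U) (s : ℕ) :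
    (NF Δ s).card + fNum Δ s = (Fintype.card U).choose s := by
  have h1 : fNum Δ s = ((univ.powersetCard s).filter fun G => G ∈ Δ.faces).card := by
    unfold fNum
    congr 1
    ext G
    simp only [mem_filter, mem_powersetCard]
    constructor
    · rintro ⟨h1, h2⟩
      exact ⟨⟨subset_univ _, h2⟩, h1⟩
    · rintro ⟨⟨_, h2⟩, h1⟩
      exact ⟨h1, h2⟩
  have h2 := Finset.card_filter_add_card_filter_not (s := (univ : Finset U).powersetCard s)
    (fun G => G ∈ Δ.faces)
  rw [card_powersetCard, card_univ] at h2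
  unfold NF
  omega

lemma fNum_one (Δ : SCx U) : fNum Δ 1 = Fintype.card U := by
  have h1 := card_NF Δ 1
  rw [Nat.choose_one_right] at h1
  have h2 : (NF Δ 1).card = 0 := by
    rw [card_eq_zero, eq_empty_iff_forall_notMem]
    intro G hG
    obtain ⟨h3, h4⟩ := mem_NF.1 hG
    obtain ⟨u, rfl⟩ := card_eq_one.1 h3
    exact h4 (Δ.vertex_mem u)
  omega

/-- the sets of size `s` containing `A` -/
def Sup (s : ℕ) (A : Finset U) : Finset (Finset U) :=
  (univ.powersetCard s).filter fun G => A ⊆ G

lemma mem_Sup {s : ℕ} {A G : Finset U} : G ∈ Sup s A ↔ G.card = s ∧ A ⊆ G := by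
  simp [Sup, mem_powersetCard]

lemma card_Sup (s : ℕ) (A : Finset U) :
    (Sup s A).card = if A.card ≤ s then (Fintype.card U - A.card).choose (s - A.card) else 0 := by
  split_ifs with h
  · have h1 : (Fintype.card U - A.card).choose (s - A.card) =
        ((Aᶜ).powersetCard (s - A.card)).card := by
      rw [card_powersetCard, card_compl]
    rw [h1]
    refine Finset.card_nbij' (fun G => G \ A) (fun G => G ∪ A) ?_ ?_ ?_ ?_
    · intro G hG
      rw [mem_coe, mem_Sup] at hG
      rw [mem_coe, mem_powersetCard, card_sdiff_of_subset hG.2, hG.1]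
      refine ⟨?_, rfl⟩
      intro x hx
      rw [mem_compl]
      exact (mem_sdiff.1 hx).2
    · intro G hG
      rw [mem_coe, mem_powersetCard] at hG
      rw [mem_coe, mem_Sup]
      refine ⟨?_, subset_union_right⟩
      have hdis : Disjoint G A := by
        rw [Finset.disjoint_left]
        intro x hx
        exact mem_compl.1 (hG.1 hx)
      rw [card_union_of_disjoint hdis, hG.2]
      omega
    · intro G hG
      rw [mem_coe, mem_Sup] at hG
      exact sdiff_union_of_subset hG.2
    · intro G hG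
      rw [mem_coe, mem_powersetCard] at hG
      have hdis : Disjoint G A := by
        rw [Finset.disjoint_left]
        intro x hx
        exact mem_compl.1 (hG.1 hx)
      exact union_sdiff_cancel_right hdis
  · rw [card_eq_zero, eq_empty_iff_forall_notMem]
    intro G hG
    rw [mem_Sup] at hG
    have := card_le_card hG.2
    omega

/-- blocks of `K` -/
def blk (i q r : ℕ) (t : Fin (q + 1)) : Finset (Σ t : Fin (q + 1), Fin (dims i q r t + 1)) :=
  univ.map ⟨fun x => ⟨t, x⟩, fun x y h => by simpa using h⟩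

lemma mem_blk {i q r : ℕ} {t : Fin (q + 1)} {y : Σ t : Fin (q + 1), Fin (dims i q r t + 1)} :
    y ∈ blk i q r t ↔ y.1 = t := by
  unfold blk
  rw [mem_map]
  constructor
  · rintro ⟨x, _, rfl⟩
    rfl
  · rintro rfl
    exact ⟨y.2, mem_univ _, rfl⟩

lemma card_blk (i q r : ℕ) (t : Fin (q + 1)) : (blk i q r t).card = dims i q r t + 1 := by
  unfold blk
  rw [card_map, card_univ, Fintype.card_fin]

lemma dims_last (i q r : ℕ) : dims i q r (Fin.last q) = r := by simp [dims]

lemma dims_castSucc (i q r : ℕ) (t : Fin q) : dims i q r t.castSucc = i := by simp [dims]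

lemma not_mem_K {i q r : ℕ} {hi : 1 ≤ i} {hr : 1 ≤ r}
    {G : Finset (Σ t : Fin (q + 1), Fin (dims i q r t + 1))} :
    G ∉ (K i q r hi hr).faces ↔ ∃ t, blk i q r t ⊆ G := by
  unfold K
  rw [mem_join]
  push Not
  refine exists_congr fun t => ?_
  constructor
  · intro h y hy
    rw [mem_blk] at hy
    subst hy
    exact h y.2
  · intro h x
    exact h (mem_blk.2 rfl)

lemma card_NF_K {i q r : ℕ} (hi : 1 ≤ i) (hr : 1 ≤ r) (_hri : r ≤ i) (s : ℕ) (hs : s ≤ i + 1) :
    (NF (K i q r hi hr) s).card =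
      (Sup s (blk i q r (Fin.last q))).card + (if s = i + 1 then q else 0) := by
  have hinj : Function.Injective fun t : Fin q => blk i q r t.castSucc := by
    intro t t' h
    have h1 : (⟨t.castSucc, 0⟩ : Σ t : Fin (q + 1), Fin (dims i q r t + 1)) ∈
        blk i q r t.castSucc := mem_blk.2 rfl
    have h2 : (⟨t.castSucc, 0⟩ : Σ t : Fin (q + 1), Fin (dims i q r t + 1)) ∈
        blk i q r t'.castSucc := by
      have h3 : blk i q r t.castSucc = blk i q r t'.castSucc := h
      rw [← h3]; exact h1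
    exact Fin.castSucc_injective q (mem_blk.1 h2)
  have h1 : NF (K i q r hi hr) s = Sup s (blk i q r (Fin.last q)) ∪
      (if s = i + 1 then univ.image (fun t : Fin q => blk i q r t.castSucc) else ∅) := by
    ext G
    rw [mem_NF, not_mem_K, mem_union, mem_Sup]
    constructor
    · rintro ⟨h1, t, ht⟩
      by_cases htl : t = Fin.last q
      · subst htl
        exact Or.inl ⟨h1, ht⟩
      · right
        obtain ⟨t', rfl⟩ := Fin.exists_castSucc_eq.2 htl
        have h2 := card_le_card ht
        rw [card_blk, dims_castSucc] at h2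
        have h3 : s = i + 1 := by omega
        rw [if_pos h3, mem_image]
        refine ⟨t', mem_univ _, ?_⟩
        apply eq_of_subset_of_card_le ht
        rw [card_blk, dims_castSucc]
        omega
    · rintro (⟨h1, h2⟩ | h)
      · exact ⟨h1, _, h2⟩
      · split_ifs at h with h3
        · obtain ⟨t, _, rfl⟩ := mem_image.1 h
          refine ⟨?_, _, Subset.refl _⟩
          rw [card_blk, dims_castSucc, h3]
        · exact absurd h (notMem_empty _)
  rw [h1, card_union_of_disjoint]
  · congr 1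
    split_ifs with h3
    · rw [card_image_of_injective _ hinj, card_univ, Fintype.card_fin]
    · rfl
  · rw [Finset.disjoint_left]
    intro G hG hG2
    rw [mem_Sup] at hG
    split_ifs at hG2 with h3
    · obtain ⟨t, _, rfl⟩ := mem_image.1 hG2
      have h4 : (⟨Fin.last q, 0⟩ : Σ t : Fin (q + 1), Fin (dims i q r t + 1)) ∈
          blk i q r (Fin.last q) := mem_blk.2 rfl
      have h5 := mem_blk.1 (hG.2 h4)
      exact (Fin.castSucc_lt_last t).ne h5.symm
    · exact notMem_empty _ hG2

lemma exists_missing {Δ : SCx U} (G : Finset U) (hG : G ∉ Δ.faces) :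
    ∃ M ⊆ G, IsMissingFace Δ M := by
  induction G using Finset.strongInduction with
  | _ G ih =>
    by_cases h : ∀ H, H ⊂ G → H ∈ Δ.faces
    · exact ⟨G, Subset.refl _, hG, h⟩
    · push Not at h
      obtain ⟨H, hH, hH2⟩ := h
      obtain ⟨M, hM, hM2⟩ := ih H hH hH2
      exact ⟨M, hM.trans hH.1, hM2⟩

/-- The structure of the nonfaces. -/
lemma structure_lemma {Δ : SCx U} {i q r : ℕ} (hi : 1 ≤ i) (hr : 1 ≤ r) (hri : r ≤ i)
    (hf : ∀ k, fNum Δ k = fNum (K i q r hi hr) k)
    (hmiss : ∀ τ, IsMissingFace Δ τ → τ.card ≤ i + 1) :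
    ∃ B : Fin (q + 1) → Finset U, (∀ t, (B t).card = dims i q r t + 1) ∧
      ∀ G, G ∉ Δ.faces ↔ ∃ t, B t ⊆ G := by
  have hn : Fintype.card U =
      Fintype.card (Σ t : Fin (q + 1), Fin (dims i q r t + 1)) := by
    have := hf 1
    rw [fNum_one, fNum_one] at this
    exact this
  have hNF : ∀ s, (NF Δ s).card = (NF (K i q r hi hr) s).card := by
    intro s
    have h1 := card_NF Δ s
    have h2 := card_NF (K i q r hi hr) s
    rw [hf s, hn] at h1
    omega
  have hbl : (blk i q r (Fin.last q)).card = r + 1 := by rw [card_blk, dims_last]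
  have hsmall : ∀ G : Finset U, G.card ≤ r → G ∈ Δ.faces := by
    intro G hG
    by_contra h
    have h1 : G ∈ NF Δ G.card := mem_NF.2 ⟨rfl, h⟩
    have h2 := hNF G.card
    rw [card_NF_K hi hr hri _ (by omega), card_Sup, hbl, if_neg (by omega),
      if_neg (by omega)] at h2
    have h3 : NF Δ G.card = ∅ := card_eq_zero.1 h2
    rw [h3] at h1
    exact notMem_empty _ h1
  obtain ⟨M0, hM0⟩ : (NF Δ (r + 1)).Nonempty := by
    rw [← card_pos, hNF, card_NF_K hi hr hri _ (by omega), card_Sup, hbl, if_pos le_rfl,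
      Nat.sub_self, Nat.choose_zero_right]
    omega
  obtain ⟨hM0c, hM0n⟩ := mem_NF.1 hM0
  have hupn : ∀ s, Sup s M0 ⊆ NF Δ s := by
    intro s G hG
    obtain ⟨h1, h2⟩ := mem_Sup.1 hG
    exact mem_NF.2 ⟨h1, fun h => hM0n (Δ.down G h M0 h2)⟩
  have hcard : ∀ s ≤ i + 1, (NF Δ s \ Sup s M0).card = if s = i + 1 then q else 0 := by
    intro s hs
    rw [card_sdiff_of_subset (hupn s), hNF, card_NF_K hi hr hri s hs, card_Sup, card_Sup, hbl,
      hM0c, hn]
    omega
  have hQ := hcard (i + 1) le_rfl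
  rw [if_pos rfl] at hQ
  set Q := NF Δ (i + 1) \ Sup (i + 1) M0 with hQdef
  have hQm : ∀ G ∈ Q, G.card = i + 1 ∧ G ∉ Δ.faces := by
    intro G hG
    rw [hQdef, mem_sdiff, mem_NF] at hG
    exact hG.1
  let e : Fin q ≃ Q := (Q.equivFinOfCardEq hQ).symm
  have hlast : ∀ G, G ∉ Δ.faces → ¬ M0 ⊆ G → ∃ t, (e t : Finset U) ⊆ G := by
    intro G hG hGM
    obtain ⟨M, hM, hM2⟩ := exists_missing G hG
    have hMc := hmiss M hM2
    have hMM : ¬ M0 ⊆ M := fun h => hGM (h.trans hM)
    have h1 : M ∈ NF Δ M.card \ Sup M.card M0 := by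
      rw [mem_sdiff, mem_NF, mem_Sup]
      exact ⟨⟨rfl, hM2.1⟩, fun h => hMM h.2⟩
    have h2 := hcard M.card hMc
    have h3 : M.card = i + 1 := by
      by_contra h3
      rw [if_neg h3, card_eq_zero] at h2
      rw [h2] at h1
      exact notMem_empty _ h1
    rw [h3, ← hQdef] at h1
    exact ⟨e.symm ⟨M, h1⟩, by rw [Equiv.apply_symm_apply]; exact hM⟩
  refine ⟨fun t => if h : (t : ℕ) < q then (e ⟨t, h⟩ : Finset U) else M0, fun t => ?_,
    fun G => ⟨fun hG => ?_, ?_⟩⟩
  · show (if h : (t : ℕ) < q then (e ⟨t, h⟩ : Finset U) else M0).card = _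
    unfold dims
    by_cases h : (t : ℕ) < q
    · rw [dif_pos h, if_pos h]
      exact (hQm _ (e ⟨t, h⟩).2).1
    · rw [dif_neg h, if_neg h, hM0c]
  · by_cases hGM : M0 ⊆ G
    · refine ⟨Fin.last q, ?_⟩
      show (if h : ((Fin.last q : Fin (q + 1)) : ℕ) < q then
        (e ⟨(Fin.last q : Fin (q + 1)), h⟩ : Finset U) else M0) ⊆ G
      rw [dif_neg (by simp)]
      exact hGM
    · obtain ⟨t, ht⟩ := hlast G hG hGM
      refine ⟨t.castSucc, ?_⟩
      show (if h : ((t.castSucc : Fin (q + 1)) : ℕ) < q then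
        (e ⟨(t.castSucc : Fin (q + 1)), h⟩ : Finset U) else M0) ⊆ G
      rw [dif_pos (by simp)]
      exact ht
  · rintro ⟨t, ht⟩ hG
    have ht2 : (if h : (t : ℕ) < q then (e ⟨t, h⟩ : Finset U) else M0) ⊆ G := ht
    by_cases h : (t : ℕ) < q
    · rw [dif_pos h] at ht2
      exact (hQm _ (e ⟨t, h⟩).2).2 (Δ.down G hG _ ht2)
    · rw [dif_neg h] at ht2
      exact hM0n (Δ.down G hG _ ht2)

end proof

/-- Uniqueness of the minimizer: a `ℤ/2ℤ`-homology `(d-1)`-sphere all of whose missing faces have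
dimension at most `i` and with the same g-numbers as `K(i, d-1)`, where `d = q i + r` and
`1 ≤ r ≤ i`, is isomorphic to `K(i, d-1)`. -/
theorem result (i q r d : ℕ) (hi : 1 ≤ i) (hr : 1 ≤ r) (hri : r ≤ i) (hd : d = q * i + r)
    (U : Type) [Fintype U] [DecidableEq U] (Δ : SCx U) (hΔ : IsSphere Δ d)
    (hmiss : ∀ τ, IsMissingFace Δ τ → τ.card ≤ i + 1)
    (hg : ∀ j ≤ d / 2, gNum Δ d j = gNum (K i q r hi hr) d j) :
    Isomorphic Δ (K i q r hi hr) := by
  have hf := fNum_eq hi hr hd hΔ hg
  obtain ⟨B, hB1, hB2⟩ := structure_lemma hi hr hri hf hmiss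
  have hn : Fintype.card U = d + (q + 1) := by
    have := hf 1
    rw [fNum_one, fNum_one, Fintype.card_sigma] at this
    simp only [Fintype.card_fin, Finset.sum_add_distrib, Finset.sum_const, card_univ,
      smul_eq_mul, mul_one, sum_dims] at this
    rw [this, hd]
  have hne : ∀ t, (B t).Nonempty := by
    intro t
    rw [← card_pos, hB1]
    omega
  have hdisj : ∀ t t', t ≠ t' → Disjoint (B t) (B t') := by
    intro t t' htt
    rw [Finset.disjoint_left]
    intro v hv hv'
    choose w hw using hne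
    set T : Finset U := (univ.erase t').image (fun s => if s = t then v else w s) with hT
    have hTc : T.card ≤ q := by
      apply card_image_le.trans
      rw [card_erase_of_mem (mem_univ _), card_univ, Fintype.card_fin]
      rfl
    have hTm : ∀ s, ∃ x ∈ B s, x ∈ T := by
      intro s
      by_cases h1 : s = t'
      · subst h1
        refine ⟨v, hv', ?_⟩
        rw [hT, mem_image]
        exact ⟨t, mem_erase.2 ⟨htt, mem_univ _⟩, if_pos rfl⟩
      · by_cases h2 : s = t
        · subst h2
          refine ⟨v, hv, ?_⟩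
          rw [hT, mem_image]
          exact ⟨s, mem_erase.2 ⟨h1, mem_univ _⟩, if_pos rfl⟩
        · refine ⟨w s, hw s, ?_⟩
          rw [hT, mem_image]
          exact ⟨s, mem_erase.2 ⟨h1, mem_univ _⟩, if_neg h2⟩
    have hTf : Tᶜ ∈ Δ.faces := by
      by_contra h
      obtain ⟨s, hs⟩ := (hB2 _).1 h
      obtain ⟨x, hx1, hx2⟩ := hTm s
      exact (mem_compl.1 (hs hx1)) hx2
    have h1 := card_le hΔ hTf
    rw [card_compl, hn] at h1
    omega
  let f : (Σ t : Fin (q + 1), Fin (dims i q r t + 1)) → U :=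
    fun y => (((B y.1).equivFinOfCardEq (hB1 y.1)).symm y.2 : U)
  have hfm : ∀ y, f y ∈ B y.1 := fun y => (((B y.1).equivFinOfCardEq (hB1 y.1)).symm y.2).2
  have hinj : Function.Injective f := by
    rintro ⟨t, x⟩ ⟨t', x'⟩ h
    by_cases htt : t = t'
    · subst htt
      have h1 : ((B t).equivFinOfCardEq (hB1 t)).symm x =
          ((B t).equivFinOfCardEq (hB1 t)).symm x' := Subtype.ext h
      have h2 := ((B t).equivFinOfCardEq (hB1 t)).symm.injective h1
      rw [h2]
    · exfalso
      have h1 := hfm ⟨t, x⟩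
      have h2 := hfm ⟨t', x'⟩
      rw [← h] at h2
      exact Finset.disjoint_left.1 (hdisj t t' htt) h1 h2
  have hbij : Function.Bijective f := by
    rw [Fintype.bijective_iff_injective_and_card]
    refine ⟨hinj, ?_⟩
    rw [hn, Fintype.card_sigma]
    simp only [Fintype.card_fin, Finset.sum_add_distrib, Finset.sum_const, card_univ,
      smul_eq_mul, mul_one, sum_dims]
    rw [hd]
  let E := Equiv.ofBijective f hbij
  refine ⟨E.symm, fun G => ?_⟩
  rw [← not_iff_not, hB2, not_mem_K]
  refine exists_congr fun t => ?_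
  constructor
  · intro h y hy
    rw [mem_blk] at hy
    subst hy
    rw [mem_map]
    exact ⟨f y, h (hfm y), E.symm_apply_apply y⟩
  · intro h u hu
    set y : Σ t : Fin (q + 1), Fin (dims i q r t + 1) :=
      ⟨t, (B t).equivFinOfCardEq (hB1 t) ⟨u, hu⟩⟩ with hy
    have h1 : f y = u := by
      show (((B t).equivFinOfCardEq (hB1 t)).symm
        ((B t).equivFinOfCardEq (hB1 t) ⟨u, hu⟩) : U) = u
      rw [Equiv.symm_apply_apply]
    have h2 : y ∈ G.map E.symm.toEmbedding := h (mem_blk.2 rfl)
    rw [mem_map] at h2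
    obtain ⟨g, hg1, hg2⟩ := h2
    have h3 : E.symm g = y := hg2
    rw [Equiv.symm_apply_eq] at h3
    have h4 : E y = u := h1
    rw [← h4, ← h3]
    exact hg1

end Pool.Agent.Results.MP_94a3a7_co.UniqueMinimizer
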